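import Mathlib
import Pool.Agent.H47.CP.Defs

set_option autoImplicit false

namespace Pool.Agent.H47.CP

open Set Cardinal

lemma cpa_step {Y : Type} [TopologicalSpace Y] [CompactSpace Y] [T2Space Y]
    {D : Type} (U : D → Set Y) (hU : ∀ a, IsOpen (U a)) (hne : ∀ a, (U a).Nonempty)
    (hpf : ∀ y, {a | y ∈ U a}.Finite) (a : D) :
    ∃ (S : Finset D) (W : Set Y), a ∈ S ∧ IsOpen W ∧ W.Nonempty ∧ W ⊆ U a ∧
      ∀ b, (W ∩ U b).Nonempty → b ∈ S := by
  classical
  -- the closed sets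
  have hclosed : ∀ n : ℕ, IsClosed {y : Y | {a | y ∈ U a}.ncard ≤ n} := by
    intro n
    rw [← isOpen_compl_iff, isOpen_iff_mem_nhds]
    intro y hy
    have hy' : n < {a | y ∈ U a}.ncard := by simpa using hy
    have ho : IsOpen (⋂ b ∈ {a | y ∈ U a}, U b) := (hpf y).isOpen_biInter fun b _ => hU b
    have hm : y ∈ ⋂ b ∈ {a | y ∈ U a}, U b := by
      simp only [mem_iInter]
      intro b hb
      exact hb
    refine Filter.mem_of_superset (ho.mem_nhds hm) ?_
    intro z hz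
    simp only [mem_iInter] at hz
    have hsub : {a | y ∈ U a} ⊆ {a | z ∈ U a} := fun b hb => hz b hb
    have := ncard_le_ncard hsub (hpf z)
    simp only [mem_compl_iff, mem_ofPred_eq, not_le]
    omega
  have hcov : ⋃ n : ℕ, {y : Y | {a | y ∈ U a}.ncard ≤ n} = Set.univ := by
    refine eq_univ_of_forall fun y => mem_iUnion.2 ⟨{a | y ∈ U a}.ncard, ?_⟩
    show {a | y ∈ U a}.ncard ≤ {a | y ∈ U a}.ncard
    exact le_rfl
  have hdense := dense_iUnion_interior_of_closed hclosed hcov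
  obtain ⟨y, hyU, hy⟩ := hdense.inter_open_nonempty (U a) (hU a) (hne a)
  obtain ⟨n, hn⟩ := mem_iUnion.1 hy
  set V : Set Y := U a ∩ interior {y : Y | {a | y ∈ U a}.ncard ≤ n} with hV
  have hVo : IsOpen V := (hU a).inter isOpen_interior
  have hVn : ∀ z ∈ V, {a | z ∈ U a}.ncard ≤ n := by
    intro z hz
    have h1 : z ∈ {y : Y | {a | y ∈ U a}.ncard ≤ n} := interior_subset hz.2
    exact h1
  -- the maximal finite set
  let P : Finset D → Prop := fun S => a ∈ S ∧ (V ∩ ⋂ b ∈ S, U b).Nonempty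
  have hPcard : ∀ S, P S → S.card ≤ n := by
    rintro S ⟨-, z, hz1, hz2⟩
    have hsub : (S : Set D) ⊆ {a | z ∈ U a} := by
      intro b hb
      simp only [mem_iInter] at hz2
      exact hz2 b hb
    have h1 := ncard_le_ncard hsub (hpf z)
    rw [ncard_coe_finset] at h1
    exact h1.trans (hVn z hz1)
  have hP0 : P {a} := by
    refine ⟨Finset.mem_singleton_self a, y, ⟨hyU, hn⟩, ?_⟩
    simp only [Finset.mem_singleton, mem_iInter]
    rintro b rfl
    exact hyU
  have hex : ∃ k, ∃ S, P S ∧ S.card + k = n :=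
    ⟨n - ({a} : Finset D).card, {a}, hP0, Nat.add_sub_cancel' (hPcard _ hP0)⟩
  obtain ⟨S, hS, hSk⟩ := Nat.find_spec hex
  refine ⟨S, V ∩ ⋂ b ∈ S, U b, hS.1, hVo.inter (isOpen_biInter_finset fun b _ => hU b), hS.2,
    fun z hz => hz.1.1, ?_⟩
  intro b hb
  by_contra hbS
  have hP1 : P (insert b S) := by
    refine ⟨Finset.mem_insert_of_mem hS.1, ?_⟩
    obtain ⟨z, ⟨hz1, hz2⟩, hz3⟩ := hb
    refine ⟨z, hz1, ?_⟩
    simp only [Finset.mem_insert, mem_iInter] at hz2 ⊢
    rintro c (rfl | hc)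
    · exact hz3
    · exact hz2 c hc
  have h1 := hPcard _ hP1
  rw [Finset.card_insert_of_notMem hbS] at h1
  have h2 : ∃ S, P S ∧ S.card + (Nat.find hex - 1) = n :=
    ⟨insert b S, hP1, by rw [Finset.card_insert_of_notMem hbS]; omega⟩
  have h3 := Nat.find_min' hex h2
  omega

/-- CPA -/
theorem disjoint_of_pointFinite {Y : Type} [TopologicalSpace Y] [CompactSpace Y] [T2Space Y]
    {D : Type} (U : D → Set Y) (hU : ∀ a, IsOpen (U a)) (hne : ∀ a, (U a).Nonempty)
    (hpf : ∀ y, {a | y ∈ U a}.Finite) (hD : Cardinal.aleph0 < Cardinal.mk D) :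
    ∃ (M : Set D) (W : D → Set Y), Cardinal.mk M = Cardinal.mk D ∧
      (∀ a, IsOpen (W a) ∧ (W a).Nonempty) ∧ M.PairwiseDisjoint W := by
  classical
  choose S W h1 h2 h3 h4 h5 using cpa_step U hU hne hpf
  obtain ⟨M, hM⟩ := zorn_subset {M : Set D | M.PairwiseDisjoint W} (by
    intro c hc hch
    refine ⟨⋃₀ c, ?_, fun s hs => subset_sUnion_of_mem hs⟩
    exact (pairwiseDisjoint_sUnion hch.directedOn).2 fun s hs => hc hs)
  have hMd : M.PairwiseDisjoint W := hM.prop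
  refine ⟨M, W, ?_, fun a => ⟨h2 a, h3 a⟩, hMd⟩
  have hcov : (Set.univ : Set D) ⊆ ⋃ b : M, (S b : Set D) := by
    intro a _
    by_cases ha : a ∈ M
    · exact mem_iUnion.2 ⟨⟨a, ha⟩, h1 a⟩
    · have hnot : ¬ (insert a M).PairwiseDisjoint W := by
        intro hd
        exact ha (hM.le_of_ge hd (subset_insert a M) (mem_insert a M))
      rw [pairwiseDisjoint_insert] at hnot
      push Not at hnot
      obtain ⟨b, hbM, hab, hd⟩ := hnot hMd
      rw [not_disjoint_iff_nonempty_inter] at hd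
      obtain ⟨z, hz1, hz2⟩ := hd
      exact mem_iUnion.2 ⟨⟨b, hbM⟩, h5 b a ⟨z, hz2, h4 a hz1⟩⟩
  have hle : #D ≤ #M * ℵ₀ := by
    calc #D = #(Set.univ : Set D) := mk_univ.symm
      _ ≤ #(⋃ b : M, (S b : Set D) : Set D) := mk_le_mk_of_subset hcov
      _ ≤ #M * ⨆ b : M, #((S b : Set D)) := mk_iUnion_le _
      _ ≤ #M * ℵ₀ := by
          refine mul_le_mul' le_rfl (ciSup_le' fun b => ?_)
          exact (Finset.finite_toSet (S b)).lt_aleph0.le
  apply le_antisymm (mk_set_le M)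
  rcases le_or_gt (#M) ℵ₀ with hc | hc
  · exfalso
    have : #D ≤ ℵ₀ := hle.trans ((mul_le_mul' hc le_rfl).trans aleph0_mul_aleph0.le)
    exact absurd hD (not_lt.2 this)
  · rwa [mul_aleph0_eq hc.le] at hle

end Pool.Agent.H47.CP
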